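import Pool.Agent.H31.BOU.Defs

/-!
Targets, part 3: sum of the stages, structured part, comparison with the averages,
the finitary theorem, transference, the theorem of Bourgain.
-/

namespace Pool.Agent.H31.BOU

open Finset

/-- The node at scale `j` of the pair `(a, b)`. -/
def kn (a b j : ℕ) : ℤ := ((a / 2 ^ j : ℕ) : ℤ) + ((b / 2 ^ j : ℕ) : ℤ)

/-- `P` is a pursuit family of `F` with threshold `τ`. -/
structure PurP {ι : Type} [Fintype ι] (J : ℕ) (τ : ℝ) (F : ℤ → ℂ) (P : Fam ι) : Prop where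
  s : ∀ i, P.sc i ≤ J ∧ 0 ≤ P.mm i ∧ (P.mm i + 1) * 2 ^ P.sc i ≤ 2 ^ (J + 1) ∧ τ ≤ ‖P.co i‖
  e : ∑ i, 2 ^ P.sc i * ‖P.co i‖ ^ 2 ≤ 2 ^ (J + 1)
  c : ∀ j ≤ J, ∀ m, ∀ a < 2 ^ j, ‖cf (fun v => F v - P.str j v) j m a‖ ≤ τ

/-- `F` is bounded by one and vanishes outside `[0, 2 ^ (J+1))`. -/
def Bdd (J : ℕ) (F : ℤ → ℂ) : Prop :=
  (∀ v, ‖F v‖ ≤ 1) ∧ ∀ v, v ∉ Ico (0 : ℤ) (2 ^ (J + 1)) → F v = 0

open Classical in
/-- One stage: from the family with threshold `2^(-32 (n-1))` to that with threshold `2^(-32 n)`. -/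
def T_ONE : Prop := ∀ T : ℕ, ∃ C : ℝ, 0 < C ∧ ∀ (n : ℕ) (ι ι' : Type) [Fintype ι] [Fintype ι']
  (J : ℕ) (F G : ℤ → ℂ) (P : Fam ι) (P' : Fam ι'), 1 ≤ n → Bdd J F → Bdd J G →
  PurP J (1 / 2 ^ (32 * (n - 1))) F P → PurP J (1 / 2 ^ (32 * n)) F P' →
  (((range (2 ^ J) ×ˢ range (2 ^ J)).filter (fun ab : ℕ × ℕ =>
    ∃ j ≤ J, ∃ t ≤ T, C / 2 ^ n <
      ‖DD (fun v => P'.str j v - P.str j v) G j (kn ab.1 ab.2 j) t ((ab.1 : ℤ) + ab.2)‖)).card : ℝ)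
    ≤ C / 2 ^ n * 4 ^ J

open Classical in
/-- The sum of the stages. -/
def T_SUM : Prop := ∀ (T : ℕ) (ε lam : ℝ), 0 < ε → 0 < lam → ∃ n0 : ℕ, 1 ≤ n0 ∧
  ∀ (ι : Type) [Fintype ι] (J : ℕ) (F G : ℤ → ℂ) (P : Fam ι), Bdd J F → Bdd J G →
  PurP J (1 / 2 ^ (32 * n0)) F P →
  (((range (2 ^ J) ×ˢ range (2 ^ J)).filter (fun ab : ℕ × ℕ =>
    ∃ j ≤ J, ∃ t ≤ T, lam <
      ‖DD (fun v => F v - P.str j v) G j (kn ab.1 ab.2 j) t ((ab.1 : ℤ) + ab.2)‖)).card : ℝ)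
    ≤ ε * 4 ^ J

/-! ### Structured part -/

open Classical in
/-- Counting: few near pieces and few boundary scales for most pairs. -/
def T_STA : Prop := ∀ (c r : ℕ) (ε τ : ℝ), 0 < ε → 0 < τ →
  ∀ (ι : Type) [Fintype ι] (J : ℕ) (F : ℤ → ℂ) (P : Fam ι), PurP J τ F P →
  (((range (2 ^ J) ×ˢ range (2 ^ J)).filter (fun ab : ℕ × ℕ =>
    ¬ (((univ.filter (fun i => near c (P.sc i) (P.mm i) 0 ((ab.1 : ℤ) + ab.2))).card : ℝ) ≤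
        6 * (2 * c + 1) / (ε * τ ^ 2) ∧
      ∑ i ∈ univ.filter (fun i => near c (P.sc i) (P.mm i) 0 ((ab.1 : ℤ) + ab.2)), ‖P.co i‖ ≤
        6 * (2 * c + 1) / (ε * τ) ∧
      (((range (J + 1)).filter (fun j => ∃ i, meets r (P.sc i) (P.mm i) j (kn ab.1 ab.2 j) ∧
        ¬ long r (P.sc i) (P.mm i) j (kn ab.1 ab.2 j))).card : ℝ) ≤
        6 * (8 * r + 8) / (ε * τ ^ 2)))).card : ℝ) ≤ ε * 4 ^ J

open Classical in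
/-- The structured part at one node without boundary and transitional pieces. -/
def T_STN : Prop := ∀ T : ℕ, ∃ C : ℝ, 0 < C ∧ ∀ (ι θ : Type) [Fintype ι] [Fintype θ]
  (G : ℤ → ℂ) (Q : Fam θ) (P : Fam ι) (j : ℕ) (κ k : ℤ) (t : ℕ) (s μ X Y B : ℝ),
  t ≤ T → κ * 2 ^ j ≤ k → k < (κ + 2) * 2 ^ j → (∀ v, ‖G v‖ ≤ 1) →
  0 ≤ s → 0 < μ → μ ≤ 1 → 1 ≤ B → 0 ≤ X → 0 ≤ Y →
  (∀ m, ∀ a < 2 ^ j, ‖cf (fun v => G v - Q.str j v) j m a‖ ≤ s) →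
  (∀ i, meets (rr T) (P.sc i) (P.mm i) j κ → long (rr T) (P.sc i) (P.mm i) j κ) →
  (∀ u, meets (rr T) (Q.sc u) (Q.mm u) j κ → long (rr T) (Q.sc u) (Q.mm u) j κ) →
  ∑ i ∈ univ.filter (fun i => long (rr T) (P.sc i) (P.mm i) j κ), ‖P.co i‖ ≤ X →
  ∑ u ∈ univ.filter (fun u => long (rr T) (Q.sc u) (Q.mm u) j κ), ‖Q.co u‖ ≤ Y →
  (∀ i u, long (rr T) (P.sc i) (P.mm i) j κ → long (rr T) (Q.sc u) (Q.mm u) j κ →
    2 ^ j * nd (Q.be u - P.be i) ≤ μ ∨ 1 / μ ≤ 2 ^ j * nd (Q.be u - P.be i)) →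
  ‖DD (P.str j) G j κ t k - ∑ i, ∑ u, (if long (rr T) (P.sc i) (P.mm i) j κ ∧
      long (rr T) (Q.sc u) (Q.mm u) j κ ∧ 2 ^ j * nd (Q.be u - P.be i) ≤ μ then
      P.co i * Q.co u * ee ((P.be i + Q.be u) * (k : ℝ)) else 0)‖ ≤
    C * X * (s * (6 + 4 * Real.log B) + 4 * (1 + Y) / Real.sqrt B) + C * X * Y * μ

open Classical in
/-- The structured part: constant outside few scales. -/
def T_STR : Prop := ∀ (T : ℕ) (ε lam τ : ℝ), 0 < ε → 0 < lam → 0 < τ → ∃ K : ℕ,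
  ∀ (ι : Type) [Fintype ι] (J : ℕ) (F G : ℤ → ℂ) (P : Fam ι), Bdd J F → Bdd J G →
  PurP J τ F P →
  (((range (2 ^ J) ×ˢ range (2 ^ J)).filter (fun ab : ℕ × ℕ =>
    ¬ ∃ (E : Finset ℕ) (val : ℕ → ℂ), E.card ≤ K ∧
      (∀ j ≤ J, j ∉ E → ∀ t ≤ T,
        ‖DD (P.str j) G j (kn ab.1 ab.2 j) t ((ab.1 : ℤ) + ab.2) - val j‖ ≤ lam) ∧
      (∀ j < J, j ∉ E → j + 1 ∉ E → val j = val (j + 1)))).card : ℝ) ≤ ε * 4 ^ J

/-! ### Comparison with the averages -/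

/-- The averages as sums of the `DD`. -/
def T_KER : Prop := ∀ (F G : ℤ → ℂ) (j : ℕ) (κ k : ℤ) (N : ℕ), (∀ v, ‖F v‖ ≤ 1) →
  (∀ v, ‖G v‖ ≤ 1) → κ * 2 ^ j ≤ k → k < (κ + 2) * 2 ^ j → 2 ^ j ≤ N →
  ‖AN F G N k - (2 ^ j / N : ℂ) * ∑ t ∈ range (N / 2 ^ j + 1), DD F G j κ t k‖ ≤
    8 * 2 ^ j / N

open Classical in
/-- The finitary theorem. -/
def T_FIN : Prop := ∀ (ε lam : ℝ), 0 < ε → 0 < lam → ∃ K L : ℕ,
  ∀ (J : ℕ) (F G : ℤ → ℂ), Bdd J F → Bdd J G →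
  (((range (2 ^ J) ×ˢ range (2 ^ J)).filter (fun ab : ℕ × ℕ =>
    ¬ ∃ E : Finset ℕ, E.card ≤ K ∧ ∀ N N' : ℕ, 2 ^ L ≤ N → N ≤ N' → N' ≤ 2 ^ J →
      (∀ j, Nat.log 2 N ≤ j + L → j + L ≤ Nat.log 2 N' → j ∉ E) →
      ‖AN F G N ((ab.1 : ℤ) + ab.2) - AN F G N' ((ab.1 : ℤ) + ab.2)‖ ≤ lam)).card : ℝ)
    ≤ ε * 4 ^ J

/-- The sequence `A` has `K` sparse jumps of size more than `lam` up to `M`. -/
def Jmp (K : ℕ) (lam : ℝ) (M : ℕ) (A : ℕ → ℂ) : Prop :=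
  ∃ n : ℕ → ℕ, 1 ≤ n 0 ∧ (∀ i < K, 2 * n i ≤ n (i + 1)) ∧ n K ≤ M ∧
    ∀ i < K, lam < ‖A (n i) - A (n (i + 1))‖

open Classical in
/-- The finitary theorem in terms of jumps. -/
def T_FJ : Prop := ∀ (ε lam : ℝ), 0 < ε → 0 < lam → ∃ K : ℕ,
  ∀ (J : ℕ) (F G : ℤ → ℂ), 1 ≤ J → Bdd J F → Bdd J G →
  (((Ico ((2 : ℤ) ^ (J - 1)) (3 * 2 ^ (J - 1))).filter (fun k =>
    Jmp K lam (2 ^ J) (fun N => AN F G N k))).card : ℝ) ≤ ε * 2 ^ J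

/-! ### Transference -/

/-- The averages of a system. -/
noncomputable def AX {X : Type*} [MeasurableSpace X] (T : X ≃ᵐ X) (f g : X → ℂ) (N : ℕ) (x : X) :
    ℂ :=
  (∑ n ∈ Finset.Icc 1 N, f (T^[n] x) * g (T.symm^[n] x)) / N

open MeasureTheory in
/-- The jumps of the averages of a system: measure of the set of points with `K` jumps up to `M`. -/
def T_TRF : Prop := ∀ (ε lam : ℝ), 0 < ε → 0 < lam → ∃ K : ℕ,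
  ∀ (X : Type*) [MeasurableSpace X] (μ : Measure X) [IsProbabilityMeasure μ] (T : X ≃ᵐ X)
    (f g : X → ℂ), MeasurePreserving T μ μ → Measurable f → Measurable g → (∀ x, ‖f x‖ ≤ 1) →
    (∀ x, ‖g x‖ ≤ 1) → ∀ M : ℕ,
    MeasurableSet {x | Jmp K lam M (fun N => AX T f g N x)} ∧
    μ.real {x | Jmp K lam M (fun N => AX T f g N x)} ≤ ε

open Filter in
/-- A bounded sequence with finitely many jumps of every size converges. -/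
def T_CNV : Prop := ∀ (A : ℕ → ℂ),
  (∀ lam > (0 : ℝ), ∃ K, ∀ M, ¬ Jmp K lam M A) → ∃ l, Tendsto A atTop (nhds l)

open MeasureTheory Filter in
/-- Bourgain double recurrence theorem. -/
def T_BOU : Prop :=
  ∀ (X : Type*) [MeasurableSpace X] (μ : Measure X) [IsProbabilityMeasure μ] (T : X ≃ᵐ X)
    (f g : X → ℂ), MeasurePreserving T μ μ → Measurable f → Measurable g → (∀ x, ‖f x‖ ≤ 1) →
    (∀ x, ‖g x‖ ≤ 1) →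
    ∀ᵐ x ∂μ, ∃ l : ℂ, Tendsto (fun N => AX T f g N x) atTop (nhds l)

end Pool.Agent.H31.BOU
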