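import Pool.Agent.H31.BOU.Defs

/-!
Targets, part 2: the nodes. Monotonicity, window estimates at a good node, near and far part,
main term, energies, exceptional nodes, bad nodes.
-/

namespace Pool.Agent.H31.BOU

open Finset

/-! ### Block N: one node -/

/-- Monotonicity: from a node to its children and back. -/
def T_MON : Prop :=
  (∀ (C i : ℕ) (m : ℤ) (j : ℕ) (κ c : ℤ), 0 ≤ c → c ≤ 2 →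
    near C i m (j + 1) κ → near C i m j (2 * κ + c)) ∧
  (∀ (r i : ℕ) (m : ℤ) (j : ℕ) (κ c : ℤ), 2 ≤ r → 0 ≤ c → c ≤ 2 →
    long r i m (j + 1) κ → long r i m j (2 * κ + c)) ∧
  (∀ (r i : ℕ) (m : ℤ) (j : ℕ) (κ : ℤ) (C : ℕ), 2 ≤ r → r + 2 ≤ C →
    (long r i m j κ → j < i ∧ meets r i m j κ) ∧ (meets r i m j κ → near C i m j κ)) ∧
  (∀ (ι θ : Type) [Fintype ι] [Fintype θ] (C : ℕ) (q : ℝ) (Q : Fam θ) (P : Fam ι) (j : ℕ)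
    (κ c : ℤ), 0 ≤ c → c ≤ 2 → Good C q Q P j (2 * κ + c) → Good C q Q P (j + 1) κ) ∧
  (∀ (θ : Type) [Fintype θ] (C : ℕ) (x : ℝ) (Q : Fam θ) (β : ℝ) (j : ℕ)
    (κ c : ℤ), 0 ≤ x → 0 ≤ c → c ≤ 2 → far C x Q β j (2 * κ + c) → far C x Q β (j + 1) κ)

/-- From a node to the parent of two neighbours of the node. -/
def T_NBR : Prop := ∀ (ι θ : Type) [Fintype ι] [Fintype θ] (T : ℕ) (q : ℝ) (Q : Fam θ) (P : Fam ι)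
  (i : ι) (j : ℕ) (κ : ℤ) (u : ℕ), 1 ≤ q → 1 ≤ u → u ≤ T →
  alive (cc T) (rr T) q Q P i j κ → alive 4 2 q Q P i (j + 1) ((κ - u) / 2)

/-- `ph` is a martingale along the chain. -/
def T_MG : Prop := ∀ (G : ℤ → ℂ) (β : ℝ) (j : ℕ) (κ : ℤ),
  ph G β (j + 1) κ = (ph G β j (2 * κ) + 2 * ph G β j (2 * κ + 1) + ph G β j (2 * κ + 2)) / 4

/-- The bound for the averages of `G` at frequencies far from the frequencies of `Q`. -/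
def T_SIG : Prop := ∀ r : ℕ, ∃ C : ℝ, 0 < C ∧ ∀ (θ : Type) [Fintype θ] (q : ℝ) (G : ℤ → ℂ)
  (Q : Fam θ) (j : ℕ) (κ : ℤ) (c : ℕ), 1 ≤ q → (∀ v, ‖G v‖ ≤ 1) → r + 2 ≤ c →
  (∀ m, ∀ a < 2 ^ j, ‖cf (fun v => G v - Q.str j v) j m a‖ ≤ K0 / q ^ 8) →
  (open Classical in
    ((univ.filter (fun u => near c (Q.sc u) (Q.mm u) j κ)).card : ℝ) ≤ q ^ 17) →
  (open Classical in
    ∑ u ∈ univ.filter (fun u => near c (Q.sc u) (Q.mm u) j κ), ‖Q.co u‖ ^ 2 ≤ q) →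
  ∀ β : ℝ, (∀ u, near c (Q.sc u) (Q.mm u) j κ → q ^ 40 / 2 ^ j ≤ nd (β - Q.be u)) →
  ∀ (j' : ℕ) (κ' : ℤ), (j' = j ∨ j' + 1 = j) → (κ - r) * 2 ^ j ≤ κ' * 2 ^ j' →
    (κ' + 2) * 2 ^ j' ≤ (κ + r) * 2 ^ j → ‖ph G β j' κ'‖ ≤ C / q ^ 7

/-- The bound for the Fourier transform of the localised function `P.str j`. -/
def T_RHO : Prop := ∀ r : ℕ, ∃ C : ℝ, 0 < C ∧ ∀ (ι : Type) [Fintype ι] (q : ℝ)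
  (P : Fam ι) (j : ℕ) (κ : ℤ) (c : ℕ) (w : ℤ → ℝ) (β : ℝ), 1 ≤ q → r + 2 ≤ c →
  (∀ m, ∀ a < 2 ^ j, ‖cf (fun v => P.str j v) j m a‖ ≤ K0 / q ^ 32) →
  (open Classical in
    ((univ.filter (fun i => near c (P.sc i) (P.mm i) j κ)).card : ℝ) ≤ q ^ 65) →
  (open Classical in
    ∑ i ∈ univ.filter (fun i => near c (P.sc i) (P.mm i) j κ), ‖P.co i‖ ^ 2 ≤ q) →
  (∀ v, |w v| ≤ 1 ∧ |w (v + 1) - w v| ≤ 1 / 2 ^ j) →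
  ‖ft (win r j κ) (fun v => (w v : ℂ) * P.str j v) β‖ ≤ C * 2 ^ j / q ^ 31

/-- `DD` as a convolution of localised functions. -/
def T_DDC : Prop := ∀ (T : ℕ) (F G : ℤ → ℂ) (j : ℕ) (κ : ℤ) (t : ℕ) (k : ℤ), t ≤ T →
  κ * 2 ^ j ≤ k → k < (κ + 2) * 2 ^ j →
  DD F G j κ t k = ∑ v ∈ win (rr T) j κ, gm G j κ t v *
    (if 2 * k - v ∈ win (rr T) j κ then th T F j κ (2 * k - v) else 0)

/-- Fourier transform and norms of the localised `G`. -/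
def T_FTG : Prop := ∀ (T : ℕ) (G : ℤ → ℂ) (j : ℕ) (κ : ℤ) (t : ℕ), t ≤ T → (∀ v, ‖G v‖ ≤ 1) →
  (∀ β, ft (win (rr T) j κ) (gm G j κ t) β = ph G β j (κ - t)) ∧
  ∑ v ∈ win (rr T) j κ, ‖gm G j κ t v‖ ≤ 1 ∧
  ∑ v ∈ win (rr T) j κ, ‖gm G j κ t v‖ ^ 2 ≤ 1 / 2 ^ j

/-- The mean square of `DD` at a good node. -/
def T_L2N : Prop := ∀ T : ℕ, ∃ C : ℝ, 0 < C ∧ ∀ (ι θ : Type) [Fintype ι] [Fintype θ] (J : ℕ)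
  (q : ℝ) (G : ℤ → ℂ) (Q : Fam θ) (P : Fam ι), Hyp J q G Q P → ∀ (j : ℕ) (κ : ℤ) (t : ℕ),
  j ≤ J → t ≤ T → Good (cc T) q Q P j κ →
  ∑ k ∈ Ico (κ * 2 ^ j) ((κ + 2) * 2 ^ j), ‖DD (P.str j) G j κ t k‖ ^ 2 ≤ C * 2 ^ j / q ^ 62

/-- A long piece: the part of the convolution integral over grid points at distance at least `δ`. -/
def T_NFL : Prop := ∀ (p j l : ℕ) (x lo hi : ℤ) (γ : ℤ → ℂ) (β δ : ℝ) (S : Finset ℕ),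
  0 < p → 0 < δ → lo ≤ hi → Ico lo (hi + 2 ^ j) ⊆ Ico x (x + l) → S ⊆ range p →
  (∀ b ∈ S, δ ≤ nd ((b : ℝ) / p - β)) → ∑ v ∈ Ico x (x + l), ‖γ v‖ ≤ 1 →
  (∑ b ∈ S, ‖ft (Ico x (x + l)) γ ((b : ℝ) / p)‖ *
      ‖ft (Ico x (x + l)) (fun v => (chi j lo hi v : ℂ)) ((b : ℝ) / p - β)‖) / p ≤
    (2 / δ ^ 2 + 2 * p / δ) / (4 * 2 ^ j * p)

/-- A piece of any kind: logarithmic bound away from the frequencies of `Q`. -/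
def T_NFT : Prop := ∀ e : ℕ, ∃ C : ℝ, 0 < C ∧ ∀ (j l : ℕ) (x lo hi x1 x2 : ℤ) (γ : ℤ → ℂ)
  (β q σ : ℝ) (S : Finset ℕ), 1 ≤ q → 0 ≤ σ → lo ≤ hi → 1 ≤ e → l ≤ e * 2 ^ j →
  (S ⊆ range (e * 2 ^ j)) →
  (∀ b ∈ S, ‖ft (Ico x (x + l)) γ ((b : ℝ) / (e * 2 ^ j : ℕ))‖ ≤ σ / q ^ 7) →
  ∑ v ∈ Ico x (x + l), ‖γ v‖ ^ 2 ≤ 1 / 2 ^ j →
  (∑ b ∈ S, ‖ft (Ico x (x + l)) γ ((b : ℝ) / (e * 2 ^ j : ℕ))‖ *
      ‖ft (Ico x (x + l) ∩ Ico x1 x2) (fun v => (chi j lo hi v : ℂ))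
        ((b : ℝ) / (e * 2 ^ j : ℕ) - β)‖) / (e * 2 ^ j : ℕ) ≤ C * (1 + σ) / q ^ 6

/-- The near part: grid points close to the frequencies of `Q`. -/
def T_NFN : Prop := ∀ e : ℕ, ∃ C : ℝ, 0 < C ∧ ∀ (j l : ℕ) (x : ℤ) (γ Θ : ℤ → ℂ)
  (Z : Finset ℝ) (q R : ℝ), 1 ≤ q → 0 ≤ R → 1 ≤ e → l ≤ e * 2 ^ j → (Z.card : ℝ) ≤ q ^ 17 →
  (∀ β, ‖ft (Ico x (x + l)) Θ β‖ ≤ R * 2 ^ j / q ^ 31) →
  ∑ v ∈ Ico x (x + l), ‖γ v‖ ^ 2 ≤ 1 / 2 ^ j →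
  (open Classical in
    (∑ b ∈ (range (e * 2 ^ j)).filter (fun b : ℕ =>
        ∃ ζ ∈ Z, nd ((b : ℝ) / (e * 2 ^ j : ℕ) - ζ) ≤ q ^ 40 / 2 ^ j),
      ‖ft (Ico x (x + l)) γ ((b : ℝ) / (e * 2 ^ j : ℕ))‖ *
      ‖ft (Ico x (x + l)) Θ ((b : ℝ) / (e * 2 ^ j : ℕ))‖) / (e * 2 ^ j : ℕ)
      ≤ C * R / q)

/-- The main estimate at a good node. -/
def T_NF : Prop := ∀ T : ℕ, ∃ C : ℝ, 0 < C ∧ ∀ (ι θ : Type) [Fintype ι] [Fintype θ] (J : ℕ)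
  (q : ℝ) (G : ℤ → ℂ) (Q : Fam θ) (P : Fam ι), Hyp J q G Q P → ∀ (j : ℕ) (κ : ℤ) (t : ℕ) (k : ℤ),
  j ≤ J → t ≤ T → κ * 2 ^ j ≤ k → k < (κ + 2) * 2 ^ j → Good (cc T) q Q P j κ →
  ‖DD (P.str j) G j κ t k - MT (cc T) (rr T) q G Q P j κ t k‖ ≤
    C / q + C / q ^ 6 * tbs (cc T) (rr T) q Q P j κ

/-! ### Block M: the main term -/

/-- The main term at two nodes, and at shifted nodes. -/
def T_MTD : Prop := ∀ (ι θ : Type) [Fintype ι] [Fintype θ] (T : ℕ)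
  (q : ℝ) (G : ℤ → ℂ) (Q : Fam θ) (P : Fam ι), 1 ≤ q → ∀ (j j' : ℕ) (κ κ' : ℤ) (k : ℤ),
  j ≤ j' → κ' * 2 ^ j' ≤ κ * 2 ^ j → (κ + 2) * 2 ^ j ≤ (κ' + 2) * 2 ^ j' →
  Good (cc T) q Q P j κ →
  ‖MT (cc T) (rr T) q G Q P j κ 0 k - MT (cc T) (rr T) q G Q P j' κ' 0 k‖ ≤
    Real.sqrt q * ‖xv (cc T) (rr T) q Q P G j κ - xv (cc T) (rr T) q Q P G j' κ'‖ ∧
  (∀ t ≤ T, ¬ exc2 T q G Q P j κ →
    ‖MT (cc T) (rr T) q G Q P j κ t k - MT (cc T) (rr T) q G Q P j κ 0 k‖ ≤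
      Real.sqrt q * (1 / q ^ 2))

/-- The averages at alive nodes and their children are bounded by `C / q ^ 7`. -/
def T_ALB : Prop := ∀ T : ℕ, ∃ C : ℝ, 0 < C ∧ ∀ (ι θ : Type) [Fintype ι] [Fintype θ] (J : ℕ)
  (q : ℝ) (G : ℤ → ℂ) (Q : Fam θ) (P : Fam ι), Hyp J q G Q P →
  ∀ (c r : ℕ), ((c = cc T ∧ r = rr T) ∨ (c = 4 ∧ r = 2)) → ∀ (i : ι) (j : ℕ) (κ : ℤ),
  (long r (P.sc i) (P.mm i) j κ → far c (3 / 2 * q ^ 40) Q (P.be i) j κ → Good c q Q P j κ →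
    ‖ph G (P.be i) j κ‖ ≤ C / q ^ 7) ∧
  (∀ b : ℤ, 0 ≤ b → b ≤ 2 → long r (P.sc i) (P.mm i) (j + 1) κ →
    far c (3 / 2 * q ^ 40) Q (P.be i) (j + 1) κ → Good c q Q P (j + 1) κ →
    ‖ph G (P.be i) j (2 * κ + b)‖ ≤ C / q ^ 7)

/-- The one step inequality for the vector of the averages. -/
def T_STP : Prop := ∀ (ι θ : Type) [Fintype ι] [Fintype θ] (c r : ℕ) (q σ : ℝ) (G : ℤ → ℂ)
  (Q : Fam θ) (P : Fam ι), 0 ≤ σ →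
  (∀ (i : ι) (j : ℕ) (κ : ℤ), alive c r q Q P i j κ → ‖ph G (P.be i) j κ‖ ≤ σ) →
  ∀ (j : ℕ) (p s : ℕ) (y : EuclideanSpace ℂ ι), (∀ i, ‖y i‖ ≤ σ) →
  (∑ a ∈ range 2, ∑ b ∈ range 2,
      ‖xv c r q Q P G j (((2 * p + a : ℕ) : ℤ) + ((2 * s + b : ℕ) : ℤ)) - y‖ ^ 2) / 4 ≤
    ‖xv c r q Q P G (j + 1) ((p : ℤ) + s) - y‖ ^ 2 + ∑ i, en1 c r q σ G Q P i j ((p : ℤ) + s)

/-- The sum of the energies. -/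
def T_ENS : Prop := ∀ T : ℕ, ∃ C : ℝ, 0 < C ∧ ∀ (ι θ : Type) [Fintype ι] [Fintype θ] (J : ℕ)
  (q : ℝ) (G : ℤ → ℂ) (Q : Fam θ) (P : Fam ι) (σ : ℝ), Hyp J q G Q P → 0 ≤ σ →
  (∀ (i : ι) (j : ℕ) (κ : ℤ),
    (alive (cc T) (rr T) q Q P i j κ → ‖ph G (P.be i) j κ‖ ≤ σ) ∧
    (∀ b : ℤ, 0 ≤ b → b ≤ 2 → alive (cc T) (rr T) q Q P i (j + 1) κ →
      ‖ph G (P.be i) j (2 * κ + b)‖ ≤ σ)) →
  ∑ j ∈ range J, (4 : ℝ) ^ (j + 1) * ∑ p ∈ range (2 ^ (J - (j + 1))),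
      ∑ s ∈ range (2 ^ (J - (j + 1))),
        ∑ i, en1 (cc T) (rr T) q σ G Q P i j ((p : ℤ) + s) ≤
    C * σ ^ 2 * q ^ 64 * 4 ^ J

open Classical in
/-- The number of exceptional nodes of the second type. -/
def T_TY2 : Prop := ∀ T : ℕ, ∃ C : ℝ, 0 < C ∧ ∀ (ι θ : Type) [Fintype ι] [Fintype θ] (J : ℕ)
  (q : ℝ) (G : ℤ → ℂ) (Q : Fam θ) (P : Fam ι), Hyp J q G Q P →
  ∑ j ∈ range J, (4 : ℝ) ^ j * ∑ p ∈ range (2 ^ (J - j)), ∑ s ∈ range (2 ^ (J - j)),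
      (if exc2 T q G Q P j ((p : ℤ) + s) then 1 else 0) ≤ C * q ^ 54 * 4 ^ J

/-- The sum of the transitional and boundary coefficients. -/
def T_TBS : Prop := ∀ T : ℕ, ∃ C : ℝ, 0 < C ∧ ∀ (ι θ : Type) [Fintype ι] [Fintype θ] (J : ℕ)
  (q : ℝ) (G : ℤ → ℂ) (Q : Fam θ) (P : Fam ι), Hyp J q G Q P →
  ∑ j ∈ range (J + 1), (4 : ℝ) ^ j * ∑ p ∈ range (2 ^ (J - j)), ∑ s ∈ range (2 ^ (J - j)),
      tbs (cc T) (rr T) q Q P j ((p : ℤ) + s) ≤ C * q ^ 32 * 4 ^ J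

open Classical in
/-- Boundary nodes of one block. -/
def T_BDN : Prop := ∀ (r J i : ℕ) (m : ℤ), i ≤ J →
  ∑ j ∈ range (J + 1), (4 : ℝ) ^ j * ∑ p ∈ range (2 ^ (J - j)), ∑ s ∈ range (2 ^ (J - j)),
      (if meets r i m j ((p : ℤ) + s) ∧ ¬ long r i m j ((p : ℤ) + s) then 1 else 0) ≤
    (8 * r + 8) * 2 ^ i * 2 ^ J

open Classical in
/-- Transitional nodes of one piece: at most two scales on every path. -/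
def T_TRN : Prop := ∀ (θ : Type) [Fintype θ] (C r : ℕ) (x : ℝ) (Q : Fam θ) (β : ℝ) (J i : ℕ)
  (m : ℤ), 0 < x → 2 ≤ r →
  ∑ j ∈ range (J + 1), (4 : ℝ) ^ j * ∑ p ∈ range (2 ^ (J - j)), ∑ s ∈ range (2 ^ (J - j)),
      (if long r i m j ((p : ℤ) + s) ∧ far C (1 / 2 * x) Q β j ((p : ℤ) + s) ∧
        ¬ far C (3 / 2 * x) Q β j ((p : ℤ) + s) then 1 else 0) ≤
    2 * 2 ^ i * 2 ^ J

open Classical in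
/-- The bad pairs. -/
def T_BAD : Prop := ∀ T : ℕ, ∃ C : ℝ, 0 < C ∧ ∀ (ι θ : Type) [Fintype ι] [Fintype θ] (J : ℕ)
  (q : ℝ) (G : ℤ → ℂ) (Q : Fam θ) (P : Fam ι), Hyp J q G Q P →
  (((range (2 ^ J) ×ˢ range (2 ^ J)).filter (fun ab : ℕ × ℕ =>
    ∃ j ≤ J, ¬ Good (cc T) q Q P j (((ab.1 / 2 ^ j : ℕ) : ℤ) + ((ab.2 / 2 ^ j : ℕ) : ℤ)))).card : ℝ)
    ≤ C / q * 4 ^ J

open Classical in
/-- The stage theorem. -/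
def T_STG : Prop := ∀ T : ℕ, ∃ C : ℝ, 0 < C ∧ ∀ (ι θ : Type) [Fintype ι] [Fintype θ] (J : ℕ)
  (q : ℝ) (G : ℤ → ℂ) (Q : Fam θ) (P : Fam ι), Hyp J q G Q P →
  (((range (2 ^ J) ×ˢ range (2 ^ J)).filter (fun ab : ℕ × ℕ =>
    ∃ j ≤ J, ∃ t ≤ T, C / q <
      ‖DD (P.str j) G j (((ab.1 / 2 ^ j : ℕ) : ℤ) + ((ab.2 / 2 ^ j : ℕ) : ℤ)) t
        ((ab.1 : ℤ) + ab.2)‖)).card : ℝ) ≤ C / q * 4 ^ J

open Classical in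
/-- The union bound over checkpoints. -/
def T_UNI : Prop := ∀ T : ℕ, ∃ C : ℝ, 0 < C ∧ ∀ (ι θ : Type) [Fintype ι] [Fintype θ] (J : ℕ)
  (q : ℝ) (G : ℤ → ℂ) (Q : Fam θ) (P : Fam ι) (chk : ℕ → ℕ → ℕ → Prop), Hyp J q G Q P →
  (((range (2 ^ J) ×ˢ range (2 ^ J)).filter (fun ab : ℕ × ℕ =>
    ∃ j ≤ J, chk j (ab.1 / 2 ^ j) (ab.2 / 2 ^ j) ∧
      Good (cc T) q Q P j (((ab.1 / 2 ^ j : ℕ) : ℤ) + ((ab.2 / 2 ^ j : ℕ) : ℤ)) ∧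
      ∃ t ≤ T, 1 / q < ‖DD (P.str j) G j (((ab.1 / 2 ^ j : ℕ) : ℤ) + ((ab.2 / 2 ^ j : ℕ) : ℤ)) t
        ((ab.1 : ℤ) + ab.2)‖)).card : ℝ) ≤
    C / q ^ 60 * ∑ j ∈ range (J + 1), (4 : ℝ) ^ j * ∑ p ∈ range (2 ^ (J - j)),
      ∑ s ∈ range (2 ^ (J - j)), (if chk j p s then 1 else 0)

end Pool.Agent.H31.BOU
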