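import Pool.Agent.H31.BOU.Defs

/-!
Targets, part 1: exponential sums, Fourier analysis on dyadic blocks and on `range P`,
the pursuit, the energy lemma of one piece, the jump lemma.
-/

namespace Pool.Agent.H31.BOU

open Finset

/-! ### Block W: exponential sums -/

/-- Geometric sums. -/
def T_GEO : Prop := ∀ (θ : ℝ) (x y : ℤ), x ≤ y →
  ‖∑ v ∈ Ico x y, ee (θ * (v : ℝ))‖ ≤ ((y - x : ℤ) : ℝ) ∧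
  ‖∑ v ∈ Ico x y, ee (θ * (v : ℝ))‖ * (2 * nd θ) ≤ 1

/-- Summation by parts with a Lipschitz weight. -/
def T_ABL : Prop := ∀ (θ : ℝ) (x y : ℤ) (w : ℤ → ℝ) (W L : ℝ), x ≤ y → 0 ≤ W → 0 ≤ L →
  (∀ v ∈ Ico x y, |w v| ≤ W) → (∀ v ∈ Ico x y, v + 1 ∈ Ico x y → |w (v + 1) - w v| ≤ L) →
  ‖∑ v ∈ Ico x y, (w v : ℂ) * ee (θ * (v : ℝ))‖ ≤ W * ((y - x : ℤ) : ℝ) ∧
  ‖∑ v ∈ Ico x y, (w v : ℂ) * ee (θ * (v : ℝ))‖ * (2 * nd θ) ≤ W + L * ((y - x : ℤ) : ℝ)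

/-- Fourier inversion, Parseval and orthogonality on a block. -/
def T_INV : Prop := ∀ (H : ℤ → ℂ) (j : ℕ) (m : ℤ),
  (∀ v ∈ blk j m, H v = ∑ a ∈ range (2 ^ j), cf H j m a * ee ((a : ℝ) * (v : ℝ) / 2 ^ j)) ∧
  (2 : ℝ) ^ j * ∑ a ∈ range (2 ^ j), ‖cf H j m a‖ ^ 2 = ∑ v ∈ blk j m, ‖H v‖ ^ 2 ∧
  (∀ a ∈ range (2 ^ j), ∀ b ∈ range (2 ^ j),
    ∑ v ∈ blk j m, ee ((b : ℝ) * (v : ℝ) / 2 ^ j) * ee (-((a : ℝ) * (v : ℝ) / 2 ^ j))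
      = if a = b then (2 : ℂ) ^ j else 0)

/-- The logarithmic sum over the grid. -/
def T_LOG : Prop := ∀ (p : ℕ) (θ : ℝ) (h : ℕ → ℝ) (τ Z B : ℝ), 0 < p → 0 ≤ τ → 0 ≤ Z → 1 ≤ B →
  (∀ a ∈ range p, 0 ≤ h a ∧ h a ≤ τ) → ∑ a ∈ range p, h a ^ 2 ≤ Z ^ 2 →
  ∑ a ∈ range p, h a / max 1 ((p : ℝ) * nd ((a : ℝ) / p - θ)) ≤
    τ * (6 + 4 * Real.log B) + 4 * Z / Real.sqrt B

/-- The window estimate on one block. -/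
def T_WIN : Prop := ∀ (H : ℤ → ℂ) (j : ℕ) (m : ℤ) (w : ℤ → ℝ) (τ Z B W L β : ℝ),
  0 ≤ τ → 0 ≤ Z → 1 ≤ B → 0 ≤ W → 0 ≤ L →
  (∀ a < 2 ^ j, ‖cf H j m a‖ ≤ τ) → (∀ v ∈ blk j m, ‖H v‖ ≤ Z) →
  (∀ v ∈ blk j m, |w v| ≤ W) → (∀ v ∈ blk j m, v + 1 ∈ blk j m → |w (v + 1) - w v| ≤ L) →
  ‖∑ v ∈ blk j m, (w v : ℂ) * H v * ee (-(β * (v : ℝ)))‖ ≤
    (W + L * 2 ^ j) * 2 ^ j * (τ * (6 + 4 * Real.log B) + 4 * Z / Real.sqrt B)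

/-- The hat weight. -/
def T_HAT : Prop :=
  (∀ (f : ℤ → ℂ) (j : ℕ) (x : ℤ),
    ∑ a ∈ range (2 ^ j), ∑ b ∈ range (2 ^ j), f (x + a + b) =
      4 ^ j * ∑ v ∈ Ico x (x + 2 ^ (j + 1)), (hat j (v - x) : ℂ) * f v) ∧
  (∀ (j : ℕ) (v : ℤ), 0 ≤ hat j v ∧ hat j v ≤ 1 / 2 ^ j ∧
    |hat j (v + 1) - hat j v| ≤ 1 / 4 ^ j ∧ (v < 0 ∨ 2 ^ (j + 1) ≤ v + 1 → hat j v = 0)) ∧
  (∀ j : ℕ, ∑ v ∈ Ico (0 : ℤ) (2 ^ (j + 1)), hat j v = 1)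

/-- The trapezoid weight. -/
def T_CHI : Prop := ∀ (j : ℕ) (lo hi : ℤ), lo ≤ hi →
  (∀ v, 0 ≤ chi j lo hi v ∧ chi j lo hi v ≤ 1 ∧ |chi j lo hi (v + 1) - chi j lo hi v| ≤ 1 / 2 ^ j) ∧
  (∀ v, lo + 2 ^ j ≤ v + 1 → v < hi → chi j lo hi v = 1) ∧
  (∀ v, (v < lo ∨ hi + 2 ^ j ≤ v + 1) → chi j lo hi v = 0) ∧
  (∀ (s : Finset ℤ) (β : ℝ), Ico lo (hi + 2 ^ j) ⊆ s →
    ‖ft s (fun v => (chi j lo hi v : ℂ)) β‖ * (4 * 2 ^ j * nd β ^ 2) ≤ 1)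

/-- Convolution on `range p`. -/
def T_DFA : Prop := ∀ (p l : ℕ) (x k : ℤ) (γ Θ : ℤ → ℂ), 0 < p →
  2 * k - 2 * x < p → 2 * x + 2 * l - 2 * k ≤ p →
  ∑ v ∈ Ico x (x + l), γ v * (if 2 * k - v ∈ Ico x (x + l) then Θ (2 * k - v) else 0) =
    (∑ b ∈ range p, ft (Ico x (x + l)) γ ((b : ℝ) / p) * ft (Ico x (x + l)) Θ ((b : ℝ) / p) *
      ee (2 * (k : ℝ) * ((b : ℝ) / p))) / p

/-- Parseval on `range p`. -/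
def T_DFB : Prop := ∀ (p l : ℕ) (x : ℤ) (γ : ℤ → ℂ), 0 < p → l ≤ p →
  ∑ b ∈ range p, ‖ft (Ico x (x + l)) γ ((b : ℝ) / p)‖ ^ 2 = p * ∑ v ∈ Ico x (x + l), ‖γ v‖ ^ 2

/-- The mean square bound. -/
def T_DFC : Prop := ∀ (l : ℕ) (x : ℤ) (γ Θ : ℤ → ℂ) (R : ℝ) (K : Finset ℤ), 0 ≤ R →
  (∀ β, ‖ft (Ico x (x + l)) Θ β‖ ≤ R) →
  ∑ k ∈ K, ‖∑ v ∈ Ico x (x + l), γ v *
      (if 2 * k - v ∈ Ico x (x + l) then Θ (2 * k - v) else 0)‖ ^ 2 ≤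
    R ^ 2 * ∑ v ∈ Ico x (x + l), ‖γ v‖ ^ 2

/-- Grid points close to a frequency. -/
def T_CNT : Prop := ∀ (p : ℕ) (ζ δ : ℝ), 0 < p → 0 ≤ δ →
  (((range p).filter (fun b : ℕ => nd ((b : ℝ) / p - ζ) ≤ δ)).card : ℝ) ≤ 2 * δ * p + 1

/-- Grid points far from a frequency: the quadratic tail. -/
def T_TLQ : Prop := ∀ (p : ℕ) (θ δ : ℝ), 0 < p → 0 < δ →
  ∑ b ∈ (range p).filter (fun b : ℕ => δ ≤ nd ((b : ℝ) / p - θ)), 1 / nd ((b : ℝ) / p - θ) ^ 2 ≤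
    2 / δ ^ 2 + 2 * p / δ

/-! ### Block P: the pursuit -/

/-- The pursuit: removal of all Fourier coefficients of size at least `τ`, from the top scale down. -/
def T_PUR : Prop := ∀ (J : ℕ) (τ : ℝ) (F : ℤ → ℂ), 0 < τ → (∀ v, ‖F v‖ ≤ 1) →
  (∀ v, v ∉ Ico (0 : ℤ) (2 ^ (J + 1)) → F v = 0) →
  ∃ (n : ℕ) (P : Fam (Fin n)),
    (∀ i, P.sc i ≤ J ∧ 0 ≤ P.mm i ∧ (P.mm i + 1) * 2 ^ P.sc i ≤ 2 ^ (J + 1) ∧ τ ≤ ‖P.co i‖) ∧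
    ∑ i, 2 ^ P.sc i * ‖P.co i‖ ^ 2 ≤ 2 ^ (J + 1) ∧
    (∀ j ≤ J, ∀ m, ∀ a < 2 ^ j, ‖cf (fun v => F v - P.str j v) j m a‖ ≤ τ)

/-! ### Block E: the energy of one piece -/

open Classical in
/-- The energy lemma: `φ` is a martingale, `f` is a property inherited by ancestors, `φ` is bounded
by `σ` at (and just below) the nodes which are long and have `f`. -/
def T_EN : Prop := ∀ (i : ℕ) (m : ℤ) (r : ℕ) (φ : ℕ → ℤ → ℂ) (f : ℕ → ℤ → Prop) (σ : ℝ),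
  2 ≤ r → 0 ≤ σ →
  (∀ j κ, φ (j + 1) κ = (φ j (2 * κ) + 2 * φ j (2 * κ + 1) + φ j (2 * κ + 2)) / 4) →
  (∀ j κ c, 0 ≤ c → c ≤ 2 → f j (2 * κ + c) → f (j + 1) κ) →
  (∀ j κ, long r i m j κ → f j κ → ‖φ j κ‖ ≤ σ) →
  (∀ j κ c, 0 ≤ c → c ≤ 2 → long r i m (j + 1) κ → f (j + 1) κ → ‖φ j (2 * κ + c)‖ ≤ σ) →
  -- the variances at the alive nodes
  (∑ j ∈ range i, 2 ^ (j + 1) * ∑ κ ∈ Ico (m * 2 ^ (i - (j + 1))) ((m + 1) * 2 ^ (i - (j + 1))),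
    (if long r i m (j + 1) κ ∧ f (j + 1) κ then vr φ j κ else 0)) ≤ 20 * σ ^ 2 * 2 ^ i ∧
  -- the deaths
  (∑ j ∈ range i, (2 : ℝ) ^ (j + 1) *
    ∑ κ ∈ Ico (m * 2 ^ (i - (j + 1))) ((m + 1) * 2 ^ (i - (j + 1))),
    (if long r i m (j + 1) κ ∧ f (j + 1) κ then
      ((if f j (2 * κ) then 0 else 1) + 2 * (if f j (2 * κ + 1) then 0 else 1)
        + (if f j (2 * κ + 2) then 0 else 1)) / 4 else 0)) ≤ 2 ^ i ∧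
  -- the births
  (∑ j ∈ range i, (2 : ℝ) ^ (j + 1) *
    ∑ κ ∈ Ico (m * 2 ^ (i - (j + 1))) ((m + 1) * 2 ^ (i - (j + 1))),
    (if long r i m (j + 1) κ ∧ f (j + 1) κ then 0 else
      ((if long r i m j (2 * κ) ∧ f j (2 * κ) then 1 else 0)
        + 2 * (if long r i m j (2 * κ + 1) ∧ f j (2 * κ + 1) then 1 else 0)
        + (if long r i m j (2 * κ + 2) ∧ f j (2 * κ + 2) then 1 else 0)) / 4)) ≤ 2 ^ i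

/-! ### Block J: the jump lemma -/

open Classical in
/-- The jump lemma on the tree of dyadic squares. Node `(j, p, q)`, parent `(j + 1, p / 2, q / 2)`.
`chk` are the checkpoints, `ref` is the value of `x` at the last checkpoint. -/
def T_JL : Prop := ∀ (ι : Type) [Fintype ι] (J : ℕ) (x : ℕ → ℕ → ℕ → EuclideanSpace ℂ ι)
  (exc : ℕ → ℕ → ℕ → Prop) (e : ℕ → ℕ → ℕ → ℝ) (η : ℝ) (Bd : EuclideanSpace ℂ ι → Prop),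
  0 < η → (∀ j p q, Bd (x j p q)) → (∀ j p q, 0 ≤ e j p q) →
  (∀ j < J, ∀ p < 2 ^ (J - (j + 1)), ∀ q < 2 ^ (J - (j + 1)), ∀ y, Bd y →
    (∑ c ∈ range 2, ∑ d ∈ range 2, ‖x j (2 * p + c) (2 * q + d) - y‖ ^ 2) / 4 ≤
      ‖x (j + 1) p q - y‖ ^ 2 + e j p q) →
  ∃ (chk : ℕ → ℕ → ℕ → Prop) (ref : ℕ → ℕ → ℕ → EuclideanSpace ℂ ι),
    (∀ p q, chk J p q) ∧
    (∀ j p q, chk j p q → ref j p q = x j p q) ∧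
    (∀ j < J, ∀ p q, ¬ chk j p q → ref j p q = ref (j + 1) (p / 2) (q / 2) ∧
      ‖x j p q - ref j p q‖ < η ∧ ¬ exc j p q ∧ ¬ exc (j + 1) (p / 2) (q / 2)) ∧
    ∑ j ∈ range (J + 1), (4 : ℝ) ^ j * ∑ p ∈ range (2 ^ (J - j)), ∑ q ∈ range (2 ^ (J - j)),
        (if chk j p q then 1 else 0) ≤
      4 ^ J + 2 * (∑ j ∈ range (J + 1), (4 : ℝ) ^ j *
          ∑ p ∈ range (2 ^ (J - j)), ∑ q ∈ range (2 ^ (J - j)), (if exc j p q then 1 else 0))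
        + (1 / η ^ 2) * ∑ j ∈ range J, (4 : ℝ) ^ (j + 1) *
          ∑ p ∈ range (2 ^ (J - (j + 1))), ∑ q ∈ range (2 ^ (J - (j + 1))), e j p q

/-- Sums over pairs: `f` a nonnegative function of `p + q`. -/
def T_SQ : Prop := ∀ (J j : ℕ) (f : ℤ → ℝ), j ≤ J → (∀ κ, 0 ≤ f κ) →
  (4 : ℝ) ^ j * ∑ p ∈ range (2 ^ (J - j)), ∑ q ∈ range (2 ^ (J - j)), f ((p : ℤ) + q) ≤
    2 ^ J * 2 ^ j * ∑ κ ∈ Ico (0 : ℤ) (2 ^ (J - j + 1)), f κ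

/-- Sums over points and sums over nodes. -/
def T_SQN : Prop := ∀ (J j : ℕ) (f : ℕ → ℕ → ℝ), j ≤ J →
  ∑ a ∈ range (2 ^ J), ∑ b ∈ range (2 ^ J), f (a / 2 ^ j) (b / 2 ^ j) =
    4 ^ j * ∑ p ∈ range (2 ^ (J - j)), ∑ q ∈ range (2 ^ (J - j)), f p q

end Pool.Agent.H31.BOU
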