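import Pool.Agent.H31.BOU.Targets1
import Pool.Agent.H31.BOU.Targets2
import Pool.Agent.H31.BOU.Targets3
import Pool.Agent.H42.BOU.ABL
import Pool.Agent.H76.BOU.ALB
import Pool.Agent.H43.BOU.BAD
import Pool.Agent.H38.BOU.BDN
import Pool.Agent.H20.BOU.BOU
import Pool.Agent.H1.BOU.CHI
import Pool.Agent.H96.BOU.CNT
import Pool.Agent.H11.BOU.CNV
import Pool.Agent.H20.BOU.DDC
import Pool.Agent.H60.BOU.DFA
import Pool.Agent.H14.BOU.DFB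
import Pool.Agent.H14.BOU.DFC
import Pool.Agent.H94.BOU.EN
import Pool.Agent.H43.BOU.ENS
import Pool.Agent.H10.BOU.FIN
import Pool.Agent.H91.BOU.FJ
import Pool.Agent.H50.BOU.FTG
import Pool.Agent.H11.BOU.GEO
import Pool.Agent.H11.BOU.HAT
import Pool.Agent.H42.BOU.INV
import Pool.Agent.H94.BOU.JL
import Pool.Agent.H7.BOU.KER
import Pool.Agent.H79.BOU.L2N
import Pool.Agent.H89.BOU.LOG
import Pool.Agent.H14.BOU.MG
import Pool.Agent.H89.BOU.MON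
import Pool.Agent.H60.BOU.MTD
import Pool.Agent.H14.BOU.NBR
import Pool.Agent.H86.BOU.NF
import Pool.Agent.H11.BOU.NFL
import Pool.Agent.H91.BOU.NFN
import Pool.Agent.H12.BOU.NFT
import Pool.Agent.H91.BOU.ONE
import Pool.Agent.H46.BOU.PUR
import Pool.Agent.H81.BOU.RHO
import Pool.Agent.H81.BOU.SIG
import Pool.Agent.H11.BOU.SQ
import Pool.Agent.H1.BOU.SQN
import Pool.Agent.H91.BOU.STA
import Pool.Agent.H38.BOU.STG
import Pool.Agent.H78.BOU.STN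
import Pool.Agent.H46.BOU.STP
import Pool.Agent.H31.BOU.STR
import Pool.Agent.H41.BOU.SUM
import Pool.Agent.H50.BOU.TBS
import Pool.Agent.H96.BOU.TLQ
import Pool.Agent.H81.BOU.TRF
import Pool.Agent.H78.BOU.TRN
import Pool.Agent.H10.BOU.TY2
import Pool.Agent.H78.BOU.UNI
import Pool.Agent.H1.BOU.WIN

/-!
Assembly of the proof of Bourgain double recurrence theorem.
-/

namespace Pool.Agent.H31.BOU

universe u

theorem c_GEO : T_GEO := Pool.Agent.H11.BOU.pf_GEO 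
theorem c_ABL : T_ABL := Pool.Agent.H42.BOU.pf_ABL c_GEO
theorem c_HAT : T_HAT := Pool.Agent.H11.BOU.pf_HAT 
theorem c_INV : T_INV := Pool.Agent.H42.BOU.INV.pf_INV 
theorem c_LOG : T_LOG := Pool.Agent.H89.BOU.pf_LOG 
theorem c_WIN : T_WIN := Pool.Agent.H1.BOU.pf_WIN c_INV c_ABL c_LOG
theorem c_SIG : T_SIG := Pool.Agent.H81.BOU.pf_SIG c_HAT c_WIN c_ABL
theorem c_MON : T_MON := Pool.Agent.H89.BOU.pf_MON 
theorem c_ALB : T_ALB := Pool.Agent.H76.BOU.pf_ALB c_SIG c_MON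
theorem c_BAD : T_BAD := Pool.Agent.H43.BOU.pf_BAD c_MON
theorem c_SQ : T_SQ := Pool.Agent.H11.BOU.pf_SQ 
theorem c_BDN : T_BDN := Pool.Agent.H38.BOU.pf_BDN c_SQ
theorem c_JL : T_JL := Pool.Agent.H94.BOU.pf_JL 
theorem c_MG : T_MG := Pool.Agent.H14.BOU.pf_MG 
theorem c_STP : T_STP := Pool.Agent.H46.BOU.pf_STP c_MG
theorem c_EN : T_EN := Pool.Agent.H94.BOU.pf_EN 
theorem c_ENS : T_ENS := Pool.Agent.H43.BOU.pf_ENS c_EN c_SQ c_MON c_MG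
theorem c_NBR : T_NBR := Pool.Agent.H14.BOU.pf_NBR 
theorem c_TY2 : T_TY2 := Pool.Agent.H10.BOU.pf_TY2 c_EN c_SQ c_MON c_NBR c_MG c_ALB
theorem c_SQN : T_SQN := Pool.Agent.H1.BOU.pf_SQN 
theorem c_TRN : T_TRN := Pool.Agent.H78.BOU.pf_TRN c_SQN c_MON
theorem c_TBS : T_TBS := Pool.Agent.H50.BOU.pf_TBS c_BDN c_TRN
theorem c_RHO : T_RHO := Pool.Agent.H81.BOU.pf_RHO c_WIN
theorem c_CHI : T_CHI := Pool.Agent.H1.BOU.pf_CHI c_GEO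
theorem c_DDC : T_DDC := Pool.Agent.H20.BOU.pf_DDC c_HAT c_CHI
theorem c_FTG : T_FTG := Pool.Agent.H50.BOU.pf_FTG c_HAT
theorem c_DFA : T_DFA := Pool.Agent.H60.BOU.pf_DFA 
theorem c_DFB : T_DFB := Pool.Agent.H14.BOU.pf_DFB 
theorem c_DFC : T_DFC := Pool.Agent.H14.BOU.pf_DFC c_DFA c_DFB
theorem c_L2N : T_L2N := Pool.Agent.H79.BOU.pf_L2N c_RHO c_DDC c_FTG c_DFC c_CHI
theorem c_UNI : T_UNI := Pool.Agent.H78.BOU.pf_UNI c_L2N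
theorem c_CNT : T_CNT := Pool.Agent.H96.BOU.pf_CNT 
theorem c_NFN : T_NFN := Pool.Agent.H91.BOU.pf_NFN c_CNT c_DFB
theorem c_TLQ : T_TLQ := Pool.Agent.H96.BOU.TLQ.pf_TLQ 
theorem c_NFL : T_NFL := Pool.Agent.H11.BOU.pf_NFL c_CHI c_TLQ
theorem c_NFT : T_NFT := Pool.Agent.H12.BOU.pf_NFT c_ABL c_LOG c_DFB c_CHI
theorem c_NF : T_NF := Pool.Agent.H86.BOU.pf_NF c_RHO c_SIG c_DDC c_FTG c_DFA c_NFN c_NFL c_NFT c_CHI c_MON
theorem c_MTD : T_MTD := Pool.Agent.H60.BOU.MTDD.pf_MTD c_MON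
theorem c_STG : T_STG := Pool.Agent.H38.BOU.pf_STG c_JL c_MG c_STP c_ENS c_TY2 c_TBS c_BAD c_UNI c_NF c_MTD c_ALB
theorem c_PUR : T_PUR := Pool.Agent.H46.BOU.pf_PUR c_INV
theorem c_ONE : T_ONE := Pool.Agent.H91.BOU.pf_ONE c_STG c_PUR
theorem c_SUM : T_SUM := Pool.Agent.H41.BOU.pf_SUM c_ONE c_PUR c_INV
theorem c_STA : T_STA := Pool.Agent.H91.BOU.pf_STA c_BDN c_SQN
theorem c_STN : T_STN := Pool.Agent.H78.BOU.pf_STN c_HAT c_WIN c_GEO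
theorem c_STR : T_STR := Pool.Agent.H31.BOU.STRB.pf_STR c_STA c_STN c_PUR
theorem c_KER : T_KER := Pool.Agent.H7.BOU.pf_KER 
theorem c_FIN : T_FIN := Pool.Agent.H10.BOU.pf_FIN c_SUM c_STR c_PUR c_KER
theorem c_FJ : T_FJ := Pool.Agent.H91.BOU.pf_FJ c_FIN
theorem c_TRF : T_TRF.{u} := Pool.Agent.H81.BOU.TRF.pf_TRF c_FJ
theorem c_CNV : T_CNV := Pool.Agent.H11.BOU.pf_CNV 
theorem c_BOU : T_BOU.{u} := Pool.Agent.H20.BOU.pf_BOU c_TRF c_CNV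

end Pool.Agent.H31.BOU
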