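import Pool.Agent.H31.BOU.All
import Pool.Agent.H17.SS.LIX

/-!
Bourgain double recurrence theorem in the form of the return times problem.
-/

namespace Pool.Agent.H31.BOU

open MeasureTheory Filter Topology
open Pool.Agent.H85.RT (avg GoodWeight)
open Pool.Agent.H84.SS (DR)

universe u

/-- Every system has convergent unweighted double recurrence averages. -/
theorem dr_all (X : Type u) [MeasurableSpace X] (μ : Measure X) [IsProbabilityMeasure μ]
    (T : X ≃ᵐ X) (hT : MeasurePreserving T μ μ) : DR μ T := by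
  intro f g hf hg hf1 hg1
  filter_upwards [c_BOU.{u} X μ T f g hT hf hg hf1 hg1] with x hx
  obtain ⟨l, hl⟩ := hx
  refine ⟨l, ?_⟩
  refine hl.congr (fun N => ?_)
  simp only [AX, avg, mul_one]

/-- The constant weight is good: the theorem of Bourgain. -/
theorem good_one : GoodWeight.{u} (fun _ => 1) := by
  intro X _ μ _ T hT f g hf hg
  obtain ⟨C, f', hC, hf', hf1, hfe⟩ := Pool.Agent.H17.SS.pf_LIX X μ T hT f hf
  obtain ⟨D, g', hD, hg', hg1, hge⟩ := Pool.Agent.H17.SS.pf_LIX X μ T hT g hg
  filter_upwards [dr_all X μ T hT f' g' hf' hg' hf1 hg1, hfe, hge] with x hx h1 h2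
  obtain ⟨l, hl⟩ := hx
  refine ⟨C * D * l, ?_⟩
  refine (hl.const_mul ((C : ℂ) * D)).congr (fun N => ?_)
  simp only [avg]
  rw [← mul_div_assoc, Finset.mul_sum]
  congr 1
  refine Finset.sum_congr rfl (fun n _ => ?_)
  rw [(h1 n).1, (h2 n).2]
  ring

end Pool.Agent.H31.BOU
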