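import Mathlib

/-!
Definitions for the elementary proof of Bourgain double recurrence theorem.
Everything is finitary: functions on the integers, dyadic blocks, scale j means length 2 ^ j.
-/

namespace Pool.Agent.H31.BOU

open Finset

/-- `e(t) = exp(2 pi i t)`. -/
noncomputable def ee (t : ℝ) : ℂ := Complex.exp (((2 * Real.pi * t : ℝ) : ℂ) * Complex.I)

/-- Distance to the nearest integer. -/
noncomputable def nd (t : ℝ) : ℝ := |t - round t|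

/-- The dyadic block of scale `j` and index `m`. -/
noncomputable def blk (j : ℕ) (m : ℤ) : Finset ℤ := Finset.Ico (m * 2 ^ j) ((m + 1) * 2 ^ j)

/-- Fourier coefficient of `H` on the block `(j, m)` at the frequency `a / 2 ^ j`. -/
noncomputable def cf (H : ℤ → ℂ) (j : ℕ) (m : ℤ) (a : ℕ) : ℂ :=
  (∑ v ∈ blk j m, H v * ee (-((a : ℝ) * (v : ℝ) / 2 ^ j))) / 2 ^ j

/-- A finite family of pieces `co i * e (be i * v)` on the blocks `(sc i, mm i)`. -/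
structure Fam (ι : Type) where
  /-- scale -/
  sc : ι → ℕ
  /-- index of the block -/
  mm : ι → ℤ
  /-- frequency -/
  be : ι → ℝ
  /-- coefficient -/
  co : ι → ℂ

/-- The sum at `v` of the pieces of scale at least `j`. -/
noncomputable def Fam.str {ι : Type} [Fintype ι] (P : Fam ι) (j : ℕ) (v : ℤ) : ℂ :=
  open Classical in
  ∑ i, if j ≤ P.sc i ∧ v ∈ blk (P.sc i) (P.mm i) then P.co i * ee (P.be i * (v : ℝ)) else 0

/-- The averages `D^t` at the node `(j, κ)` (the node is the interval `[κ 2^j, (κ+2) 2^j)`):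
average over `a, b < 2 ^ j` of `G v * F (2 k - v)`, `v = (κ - t) 2 ^ j + a + b`. -/
noncomputable def DD (F G : ℤ → ℂ) (j : ℕ) (κ : ℤ) (t : ℕ) (k : ℤ) : ℂ :=
  (∑ a ∈ range (2 ^ j), ∑ b ∈ range (2 ^ j),
    G ((κ - t) * 2 ^ j + a + b) * F (2 * k - ((κ - t) * 2 ^ j + a + b))) / 4 ^ j

/-- The average of `G v * e (-β v)` over `v = κ 2 ^ j + a + b`, `a, b < 2 ^ j`. -/
noncomputable def ph (G : ℤ → ℂ) (β : ℝ) (j : ℕ) (κ : ℤ) : ℂ :=
  (∑ a ∈ range (2 ^ j), ∑ b ∈ range (2 ^ j),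
    G (κ * 2 ^ j + a + b) * ee (-(β * ((κ * 2 ^ j + a + b : ℤ) : ℝ)))) / 4 ^ j

/-- The block `(i, m)`, dilated by `C` blocks on both sides, contains the node `(j, κ)`, and `j ≤ i`. -/
def near (C : ℕ) (i : ℕ) (m : ℤ) (j : ℕ) (κ : ℤ) : Prop :=
  j ≤ i ∧ (m - C) * 2 ^ i ≤ κ * 2 ^ j ∧ (κ + 2) * 2 ^ j ≤ (m + 1 + C) * 2 ^ i

/-- `[(κ - r) 2^j, (κ + r) 2^j]` is contained in the block `(i, m)`. -/
def long (r : ℕ) (i : ℕ) (m : ℤ) (j : ℕ) (κ : ℤ) : Prop :=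
  m * 2 ^ i ≤ (κ - r) * 2 ^ j ∧ (κ + r) * 2 ^ j ≤ (m + 1) * 2 ^ i

/-- `[(κ - r) 2^j, (κ + r) 2^j)` meets the block `(i, m)`, and `j ≤ i`. -/
def meets (r : ℕ) (i : ℕ) (m : ℤ) (j : ℕ) (κ : ℤ) : Prop :=
  j ≤ i ∧ m * 2 ^ i < (κ + r) * 2 ^ j ∧ (κ - r) * 2 ^ j < (m + 1) * 2 ^ i

/-- The frequency `β` has distance more than `x / 2 ^ j` from all frequencies of the pieces of `Q`
which are near the node. -/
def far {ι : Type} (C : ℕ) (x : ℝ) (Q : Fam ι) (β : ℝ) (j : ℕ) (κ : ℤ) : Prop :=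
  ∀ u, near C (Q.sc u) (Q.mm u) j κ → x / 2 ^ j < nd (β - Q.be u)

open Classical in
/-- The node `(j, κ)` is good: few pieces of `Q` and `P` near it. -/
structure Good {ι θ : Type} [Fintype ι] [Fintype θ] (C : ℕ) (q : ℝ) (Q : Fam θ) (P : Fam ι)
    (j : ℕ) (κ : ℤ) : Prop where
  gn : ((univ.filter (fun u => near C (Q.sc u) (Q.mm u) j κ)).card : ℝ) ≤ q ^ 17
  gd : ∑ u ∈ univ.filter (fun u => near C (Q.sc u) (Q.mm u) j κ), ‖Q.co u‖ ^ 2 ≤ q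
  fn : ((univ.filter (fun i => near C (P.sc i) (P.mm i) j κ)).card : ℝ) ≤ q ^ 65
  fd : ∑ i ∈ univ.filter (fun i => near C (P.sc i) (P.mm i) j κ), ‖P.co i‖ ^ 2 ≤ q

/-- The piece `i` is alive at the node: long, far from the frequencies of `Q`, and the node is good. -/
def alive {ι θ : Type} [Fintype ι] [Fintype θ] (C r : ℕ) (q : ℝ) (Q : Fam θ) (P : Fam ι)
    (i : ι) (j : ℕ) (κ : ℤ) : Prop :=
  long r (P.sc i) (P.mm i) j κ ∧ far C (3 / 2 * q ^ 40) Q (P.be i) j κ ∧ Good C q Q P j κ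

/-- The piece `i` is transitional or boundary at the node. -/
def tb {ι θ : Type} (C r : ℕ) (q : ℝ) (Q : Fam θ) (P : Fam ι)
    (i : ι) (j : ℕ) (κ : ℤ) : Prop :=
  (meets r (P.sc i) (P.mm i) j κ ∧ ¬ long r (P.sc i) (P.mm i) j κ) ∨
  (long r (P.sc i) (P.mm i) j κ ∧ far C (1 / 2 * q ^ 40) Q (P.be i) j κ ∧
    ¬ far C (3 / 2 * q ^ 40) Q (P.be i) j κ)

/-- Sum of `‖co i‖` over the transitional and boundary pieces. -/
noncomputable def tbs {ι θ : Type} [Fintype ι] (C r : ℕ) (q : ℝ) (Q : Fam θ) (P : Fam ι)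
    (j : ℕ) (κ : ℤ) : ℝ :=
  open Classical in
  ∑ i, if tb C r q Q P i j κ then ‖P.co i‖ else 0

/-- The vector of the averages of the alive pieces. -/
noncomputable def xv {ι θ : Type} [Fintype ι] [Fintype θ] (C r : ℕ) (q : ℝ) (Q : Fam θ)
    (P : Fam ι) (G : ℤ → ℂ) (j : ℕ) (κ : ℤ) : EuclideanSpace ℂ ι :=
  open Classical in
  WithLp.toLp 2 (fun i => if alive C r q Q P i j κ then ph G (P.be i) j κ else 0)

/-- The variance of the martingale `ph` at the node `(j + 1, κ)` over its three children. -/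
noncomputable def vr (φ : ℕ → ℤ → ℂ) (j : ℕ) (κ : ℤ) : ℝ :=
  (‖φ j (2 * κ)‖ ^ 2 + 2 * ‖φ j (2 * κ + 1)‖ ^ 2 + ‖φ j (2 * κ + 2)‖ ^ 2) / 4 - ‖φ (j + 1) κ‖ ^ 2

/-- The hat weight of scale `j`: mass one, support `[0, 2 ^ (j+1))`. -/
noncomputable def hat (j : ℕ) (v : ℤ) : ℝ := max 0 (min ((v : ℝ) + 1) (2 ^ (j + 1) - 1 - v)) / 4 ^ j

/-- The trapezoid weight: convolution of the uniform weight on `[0, 2^j)` with the indicator of `[lo, hi)`. -/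
noncomputable def chi (j : ℕ) (lo hi : ℤ) (v : ℤ) : ℝ :=
  (((range (2 ^ j)).filter (fun u : ℕ => lo ≤ v - u ∧ v - u < hi)).card : ℝ) / 2 ^ j

/-- A large absolute constant. -/
noncomputable def K0 : ℝ := 2 ^ 40

/-- The Fourier transform of a function with support in the finite set `s`. -/
noncomputable def ft (s : Finset ℤ) (γ : ℤ → ℂ) (β : ℝ) : ℂ := ∑ v ∈ s, γ v * ee (-(β * (v : ℝ)))

/-- The constant of the windows for shifts up to `T`. -/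
def rr (T : ℕ) : ℕ := 2 * T + 16

/-- The constant of nearness for shifts up to `T`. -/
def cc (T : ℕ) : ℕ := 4 * T + 64

/-- The weight times `G` at the shifted node. -/
noncomputable def gm (G : ℤ → ℂ) (j : ℕ) (κ : ℤ) (t : ℕ) (v : ℤ) : ℂ :=
  (hat j (v - (κ - t) * 2 ^ j) : ℂ) * G v

/-- The localisation of `F` at the node. -/
noncomputable def th (T : ℕ) (F : ℤ → ℂ) (j : ℕ) (κ : ℤ) (v : ℤ) : ℂ :=
  (chi j ((κ - 4) * 2 ^ j) ((κ + T + 7) * 2 ^ j) v : ℂ) * F v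

/-- The window of the node: `[(κ - r) 2^j, (κ + r) 2^j)`. -/
noncomputable def win (r : ℕ) (j : ℕ) (κ : ℤ) : Finset ℤ :=
  Ico ((κ - r) * 2 ^ j) ((κ - r) * 2 ^ j + (2 * r * 2 ^ j : ℕ))

/-- The hypotheses of one stage. -/
structure Hyp {ι θ : Type} [Fintype ι] [Fintype θ] (J : ℕ) (q : ℝ) (G : ℤ → ℂ) (Q : Fam θ)
    (P : Fam ι) : Prop where
  q1 : 1 ≤ q
  G1 : ∀ v, ‖G v‖ ≤ 1
  Qs : ∀ u, Q.sc u ≤ J ∧ 0 ≤ Q.mm u ∧ (Q.mm u + 1) * 2 ^ Q.sc u ≤ 2 ^ (J + 1)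
  Qn : ∑ u, (2 : ℝ) ^ Q.sc u ≤ K0 * q ^ 16 * 2 ^ J
  Qe : ∑ u, (2 : ℝ) ^ Q.sc u * ‖Q.co u‖ ^ 2 ≤ K0 * 2 ^ J
  Qc : ∀ j ≤ J, ∀ m, ∀ a < 2 ^ j, ‖cf (fun v => G v - Q.str j v) j m a‖ ≤ K0 / q ^ 8
  Ps : ∀ i, P.sc i ≤ J ∧ 0 ≤ P.mm i ∧ (P.mm i + 1) * 2 ^ P.sc i ≤ 2 ^ (J + 1)
  Pn : ∑ i, (2 : ℝ) ^ P.sc i ≤ K0 * q ^ 64 * 2 ^ J
  Pe : ∑ i, (2 : ℝ) ^ P.sc i * ‖P.co i‖ ^ 2 ≤ K0 * 2 ^ J
  Pc : ∀ j ≤ J, ∀ m, ∀ a < 2 ^ j, ‖cf (fun v => P.str j v) j m a‖ ≤ K0 / q ^ 32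

/-- The main term at the node, for the shift `t`. -/
noncomputable def MT {ι θ : Type} [Fintype ι] [Fintype θ] (C r : ℕ) (q : ℝ) (G : ℤ → ℂ)
    (Q : Fam θ) (P : Fam ι) (j : ℕ) (κ : ℤ) (t : ℕ) (k : ℤ) : ℂ :=
  open Classical in
  ∑ i, if alive C r q Q P i j κ then
    P.co i * ee (2 * P.be i * (k : ℝ)) * ph G (P.be i) j (κ - t) else 0

/-- Exceptional nodes of the second type: the averages at a shifted node differ. -/
def exc2 {ι θ : Type} [Fintype ι] [Fintype θ] (T : ℕ) (q : ℝ) (G : ℤ → ℂ)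
    (Q : Fam θ) (P : Fam ι) (j : ℕ) (κ : ℤ) : Prop :=
  open Classical in
  ∃ t ≤ T, 1 / q ^ 4 < ∑ i, if alive (cc T) (rr T) q Q P i j κ then
    ‖ph G (P.be i) j (κ - t) - ph G (P.be i) j κ‖ ^ 2 else 0

/-- Exceptional nodes. -/
def exc {ι θ : Type} [Fintype ι] [Fintype θ] (T : ℕ) (q : ℝ) (G : ℤ → ℂ)
    (Q : Fam θ) (P : Fam ι) (j : ℕ) (κ : ℤ) : Prop :=
  q ^ 5 < tbs (cc T) (rr T) q Q P j κ ∨ exc2 T q G Q P j κ

/-- The energy of one piece at the node `(j + 1, κ)`. -/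
noncomputable def en1 {ι θ : Type} [Fintype ι] [Fintype θ] (C r : ℕ) (q σ : ℝ) (G : ℤ → ℂ)
    (Q : Fam θ) (P : Fam ι) (i : ι) (j : ℕ) (κ : ℤ) : ℝ :=
  open Classical in
  if alive C r q Q P i (j + 1) κ then
    vr (ph G (P.be i)) j κ + 16 * σ ^ 2 *
      (((if alive C r q Q P i j (2 * κ) then 0 else 1)
        + 2 * (if alive C r q Q P i j (2 * κ + 1) then 0 else 1)
        + (if alive C r q Q P i j (2 * κ + 2) then 0 else 1)) / 4)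
  else 4 * σ ^ 2 *
      (((if alive C r q Q P i j (2 * κ) then 1 else 0)
        + 2 * (if alive C r q Q P i j (2 * κ + 1) then 1 else 0)
        + (if alive C r q Q P i j (2 * κ + 2) then 1 else 0)) / 4)

/-- The double average. -/
noncomputable def AN (F G : ℤ → ℂ) (N : ℕ) (k : ℤ) : ℂ :=
  (∑ n ∈ Finset.Icc 1 N, F (k + n) * G (k - n)) / N

end Pool.Agent.H31.BOU
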